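import Mathlib

/-!
# A group with finite double centralizers which is not perfectly supportable

The group is `G = (ℤ/3)^ℕ ⋊ (FSym(ℕ) × {±1})`, where the finitary permutations permute the
coordinates and `-1` acts as the inversion. For every finite subset `F` of `G` the double centralizer
`C(C(F))` is finite. The centralizer of `-1` is countable, but `G` is not countable. In a perfectly
supportable semigroup `S` all centralizers of elements have the cardinality of `S` (if `S` is
infinite); therefore `G` is not perfectly supportable.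
-/

set_option autoImplicit false

namespace Pool.Agent.Results.MP_5e2b9f_al.NotPerfectlySupportable

universe u v

/-! ### The definitions of the problem -/

/-- finite double centralizers: `C(C(F))` is finite for every finite subset `F` -/
def FiniteDoubleCentralizers (S : Type u) [Semigroup S] : Prop :=
  ∀ F : Set S, F.Finite → (Set.centralizer (Set.centralizer F)).Finite

section

variable {S : Type u} [Semigroup S] {X : Type v}

/-- a support map on `S` -/
structure IsSupportMap (supp : S → Set X) : Prop where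
  mul_subset : ∀ f g : S, supp (f * g) ⊆ supp f ∪ supp g
  commute : ∀ f g : S, supp f ∩ supp g = ∅ → f * g = g * f

/-- `X_S`, the union of all supports -/
def total (supp : S → Set X) : Set X := ⋃ f, supp f

/-- `S(A)`, the set of all elements with support inside `A` -/
def within (supp : S → Set X) (A : Set X) : Set S := {f | supp f ⊆ A}

/-- the pair `(S, supp)` is supp-perfect -/
structure IsSuppPerfect (supp : S → Set X) : Prop extends IsSupportMap supp where
  finite_supp : ∀ f : S, (supp f).Finite
  finite_within : ∀ F : Set X, F.Finite → F ⊆ total supp → (within supp F).Finite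
  within_eq : ∀ F : Set X, F.Finite → F ⊆ total supp →
    within supp F = Set.centralizer (within supp (total supp \ F))

end

/-- `S` is perfectly supportable -/
def PerfectlySupportable (S : Type u) [Semigroup S] : Prop :=
  ∃ (X : Type v) (supp : S → Set X), IsSuppPerfect supp

/-! ### Centralizers in perfectly supportable semigroups -/

/-- If an element of a perfectly supportable semigroup has a countable centralizer, then the semigroup
is countable. -/
theorem countable_of_centralizer {S : Type u} [Semigroup S] {X : Type v} {supp : S → Set X}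
    (hp : IsSuppPerfect supp) (f : S) (hf : (Set.centralizer {f}).Countable) : Countable S := by
  set XS := total supp with hXS
  have hsub : ∀ g, supp g ⊆ XS := fun g => Set.subset_iUnion supp g
  have hc : (within supp (XS \ supp f)).Countable := by
    refine hf.mono fun g hg => ?_
    rw [Set.mem_centralizer_iff]
    rintro _ rfl
    apply hp.commute
    rw [← Set.disjoint_iff_inter_eq_empty]
    exact Set.disjoint_of_subset_right hg Set.disjoint_sdiff_right
  set A : Set X := ⋃ g ∈ within supp (XS \ supp f), supp g with hA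
  have hAc : A.Countable := hc.biUnion fun g _ => (hp.finite_supp g).countable
  have hX : XS ⊆ supp f ∪ A := by
    intro x hx
    by_contra hcon
    rw [Set.mem_union, not_or] at hcon
    obtain ⟨hxf, hxA⟩ := hcon
    obtain ⟨h, hxh⟩ := Set.mem_iUnion.1 hx
    have hfin : (supp f ∪ supp h).Finite := (hp.finite_supp f).union (hp.finite_supp h)
    have hsubF : supp f ∪ supp h ⊆ XS := Set.union_subset (hsub f) (hsub h)
    have key : within supp (XS \ ((supp f ∪ supp h) \ {x})) =
        within supp (XS \ (supp f ∪ supp h)) := by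
      apply Set.Subset.antisymm
      · intro g hg y hy
        have h1 : y ∈ XS \ ((supp f ∪ supp h) \ {x}) := hg hy
        refine ⟨h1.1, fun h2 => h1.2 ⟨h2, ?_⟩⟩
        rw [Set.mem_singleton_iff]
        rintro rfl
        apply hxA
        refine Set.mem_biUnion (x := g) ?_ hy
        intro z hz
        have h3 : z ∈ XS \ ((supp f ∪ supp h) \ {y}) := hg hz
        refine ⟨h3.1, fun h4 => h3.2 ⟨Or.inl h4, ?_⟩⟩
        rw [Set.mem_singleton_iff]
        rintro rfl
        exact hxf h4
      · intro g hg
        exact hg.trans (Set.sdiff_subset_sdiff_right Set.sdiff_subset)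
    have h1 := hp.within_eq _ (hfin.sdiff (t := {x})) (Set.sdiff_subset.trans hsubF)
    have h2 := hp.within_eq _ hfin hsubF
    rw [← hXS] at h1 h2
    rw [key, ← h2] at h1
    have h3 : h ∈ within supp ((supp f ∪ supp h) \ {x}) := by
      rw [h1]
      exact Set.subset_union_right
    exact (h3 hxh).2 rfl
  have hXc : XS.Countable := ((hp.finite_supp f).countable.union hAc).mono hX
  have hall : (Set.univ : Set S) ⊆ ⋃ F ∈ {F : Set X | F.Finite ∧ F ⊆ XS}, within supp F := by
    intro g _
    exact Set.mem_biUnion (x := supp g) ⟨hp.finite_supp g, hsub g⟩ (Set.Subset.refl _)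
  rw [← Set.countable_univ_iff]
  exact ((Set.countable_ofPred_finite_subset hXc).biUnion
    fun F hF => (hp.finite_within F hF.1 hF.2).countable).mono hall

/-! ### The group -/

/-- the group `(ℤ/3)^ℕ ⋊ (FSym(ℕ) × {±1})`: the element `(v, σ, ε)` is the map
`w ↦ v + ε (w ∘ σ⁻¹)` -/
@[ext]
structure G where
  v : ℕ → ZMod 3
  σ : Equiv.Perm ℕ
  ε : (ZMod 3)ˣ
  fin : {n | σ n ≠ n}.Finite

namespace G

theorem fin_mul {σ τ : Equiv.Perm ℕ} (h1 : {n | σ n ≠ n}.Finite) (h2 : {n | τ n ≠ n}.Finite) :
    {n | (σ * τ) n ≠ n}.Finite := by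
  refine (h1.union h2).subset fun n hn => ?_
  by_contra hcon
  rw [Set.mem_union, not_or] at hcon
  have a1 : σ n = n := by
    by_contra h
    exact hcon.1 h
  have a2 : τ n = n := by
    by_contra h
    exact hcon.2 h
  apply hn
  rw [Equiv.Perm.mul_apply, a2, a1]

theorem fin_inv {σ : Equiv.Perm ℕ} (h1 : {n | σ n ≠ n}.Finite) :
    {n | σ⁻¹ n ≠ n}.Finite := by
  refine h1.subset fun n hn h => hn ?_
  rw [Equiv.Perm.inv_eq_iff_eq]
  exact h.symm

instance : Mul G :=
  ⟨fun a b => ⟨fun n => a.v n + a.ε * b.v (a.σ⁻¹ n), a.σ * b.σ, a.ε * b.ε, fin_mul a.fin b.fin⟩⟩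
instance : One G := ⟨⟨fun _ => 0, 1, 1, by simp⟩⟩
instance : Inv G :=
  ⟨fun a => ⟨fun n => -((a.ε⁻¹ : (ZMod 3)ˣ) * a.v (a.σ n)), a.σ⁻¹, a.ε⁻¹, fin_inv a.fin⟩⟩

@[simp] theorem mul_v (a b : G) (n : ℕ) : (a * b).v n = a.v n + a.ε * b.v (a.σ⁻¹ n) := rfl
@[simp] theorem mul_σ (a b : G) : (a * b).σ = a.σ * b.σ := rfl
@[simp] theorem mul_ε (a b : G) : (a * b).ε = a.ε * b.ε := rfl
@[simp] theorem one_v (n : ℕ) : (1 : G).v n = 0 := rfl
@[simp] theorem one_σ : (1 : G).σ = 1 := rfl
@[simp] theorem one_ε : (1 : G).ε = 1 := rfl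
@[simp] theorem inv_v (a : G) (n : ℕ) :
    (a⁻¹).v n = -((a.ε⁻¹ : (ZMod 3)ˣ) * a.v (a.σ n)) := rfl
@[simp] theorem inv_σ (a : G) : (a⁻¹).σ = a.σ⁻¹ := rfl
@[simp] theorem inv_ε (a : G) : (a⁻¹).ε = a.ε⁻¹ := rfl

theorem ext' {a b : G} (h1 : ∀ n, a.v n = b.v n) (h2 : a.σ = b.σ) (h3 : a.ε = b.ε) : a = b :=
  G.ext (funext h1) h2 h3

instance : Group G := Group.ofLeftAxioms
  (by
    intro a b c
    refine ext' (fun n => ?_) ?_ ?_
    · simp only [mul_v, mul_σ, mul_ε, mul_inv_rev, Units.val_mul, Equiv.Perm.mul_apply]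
      ring
    · simp only [mul_σ, mul_assoc]
    · simp only [mul_ε, mul_assoc])
  (by
    intro a
    refine ext' (fun n => ?_) ?_ ?_
    · simp
    · simp
    · simp)
  (by
    intro a
    refine ext' (fun n => ?_) ?_ ?_
    · simp only [mul_v, inv_v, inv_σ, inv_ε, inv_inv, one_v]
      ring
    · simp only [mul_σ, inv_σ, one_σ, inv_mul_cancel]
    · simp only [mul_ε, inv_ε, one_ε, inv_mul_cancel])

end G

open G

/-! ### `G` is not perfectly supportable -/

/-- the element `-1` -/
def neg : G := ⟨fun _ => 0, 1, -1, by simp⟩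

/-- the finitary permutations form a countable set -/
theorem countable_finitary : {σ : Equiv.Perm ℕ | {n | σ n ≠ n}.Finite}.Countable := by
  have hsupp : ∀ σ : {σ : Equiv.Perm ℕ | {n | σ n ≠ n}.Finite},
      (Function.support fun n => ((σ.1 n : ℤ) - n)).Finite := by
    intro σ
    refine Set.Finite.subset σ.2 fun n hn h => hn ?_
    simp [h]
  let f : {σ : Equiv.Perm ℕ | {n | σ n ≠ n}.Finite} → (ℕ →₀ ℤ) :=
    fun σ => Finsupp.ofSupportFinite _ (hsupp σ)
  have hf : Function.Injective f := by
    intro σ τ h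
    apply Subtype.ext
    apply Equiv.ext
    intro n
    have := DFunLike.congr_fun h n
    have h1 : ((σ.1 n : ℤ) - n) = ((τ.1 n : ℤ) - n) := this
    have h2 : (σ.1 n : ℤ) = τ.1 n := by linarith
    exact_mod_cast h2
  exact Set.countable_coe_iff.1 hf.countable

theorem countable_centralizer_neg : (Set.centralizer {neg}).Countable := by
  have h : Set.centralizer {neg} ⊆ Set.range (fun p :
      {σ : Equiv.Perm ℕ | {n | σ n ≠ n}.Finite} × (ZMod 3)ˣ =>
        (⟨fun _ => 0, p.1.1, p.2, p.1.2⟩ : G)) := by
    intro g hg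
    rw [Set.mem_centralizer_iff] at hg
    have h1 := hg neg rfl
    refine ⟨(⟨g.σ, g.fin⟩, g.ε), ?_⟩
    refine ext' (fun n => ?_) rfl rfl
    have h2 := congrFun (congrArg G.v h1) n
    simp only [neg, mul_v, Units.val_neg, Units.val_one, inv_one, Equiv.Perm.coe_one, id_eq,
      mul_zero, add_zero, zero_add] at h2
    show (0 : ZMod 3) = g.v n
    generalize g.v n = x at h2 ⊢
    revert h2 x
    decide
  have : Countable {σ : Equiv.Perm ℕ | {n | σ n ≠ n}.Finite} :=
    Set.countable_coe_iff.2 countable_finitary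
  exact (Set.countable_range _).mono h

theorem not_countable : ¬ Countable G := by
  intro h
  have hinj : Function.Injective (fun A : Set ℕ =>
      (⟨fun n => (by classical exact if n ∈ A then 1 else 0), 1, 1, by simp⟩ : G)) := by
    intro A B hAB
    ext n
    have h1 := congrFun (congrArg G.v hAB) n
    classical
    by_cases hA : n ∈ A <;> by_cases hB : n ∈ B <;> simp_all
  have h2 : Countable (Set ℕ) := hinj.countable
  obtain ⟨f, hf⟩ := exists_surjective_nat (Set ℕ)
  exact Function.cantor_surjective f hf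

/-! ### `G` has finite double centralizers -/

/-- the transposition of `m` and `n` -/
def tr (m n : ℕ) : G := ⟨fun _ => 0, Equiv.swap m n, 1, by
  refine (Set.toFinite {m, n}).subset fun k hk => ?_
  by_contra hcon
  simp only [Set.mem_insert_iff, Set.mem_singleton_iff, not_or] at hcon
  exact hk (Equiv.swap_apply_of_ne_of_ne hcon.1 hcon.2)⟩

theorem tr_comm {g : G} {m n : ℕ} (hv : g.v m = g.v n) (hm : g.σ m = m) (hn : g.σ n = n) :
    g * tr m n = tr m n * g := by
  refine ext' (fun k => ?_) ?_ ?_
  · simp only [mul_v, tr, Units.val_one, mul_zero, add_zero, zero_add, one_mul, Equiv.swap_inv]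
    by_cases h1 : k = m
    · subst h1
      rw [Equiv.swap_apply_left]
      exact hv
    by_cases h2 : k = n
    · subst h2
      rw [Equiv.swap_apply_right]
      exact hv.symm
    rw [Equiv.swap_apply_of_ne_of_ne h1 h2]
  · show g.σ * Equiv.swap m n = Equiv.swap m n * g.σ
    rw [Equiv.mul_swap_eq_swap_mul, hm, hn]
  · simp [tr]

/-- the permutations which move only points of a finite set form a finite set -/
theorem finite_perms {A : Set ℕ} (hA : A.Finite) :
    {σ : Equiv.Perm ℕ | ∀ n, n ∉ A → σ n = n}.Finite := by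
  classical
  have : Finite A := hA
  have h1 : Finite {σ : Equiv.Perm ℕ // ∀ n, ¬ n ∈ A → σ n = n} :=
    Finite.of_equiv _ (Equiv.Perm.subtypeEquivSubtypePerm (· ∈ A))
  exact Set.finite_coe_iff.1 h1

theorem finiteDoubleCentralizers : FiniteDoubleCentralizers G := by
  intro F hF
  have hFin : Finite F := hF
  set Ω : Set ℕ := ⋃ g ∈ F, {n | g.σ n ≠ n} with hΩ
  have hΩf : Ω.Finite := hF.biUnion fun g _ => g.fin
  have hfix : ∀ g ∈ F, ∀ n, n ∉ Ω → g.σ n = n := by
    intro g hg n hn
    by_contra hcon
    exact hn (Set.mem_biUnion hg hcon)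
  let c : ℕ → (F → ZMod 3) := fun n g => g.1.v n
  set L : Set G := {t | ∃ m n, m ∉ Ω ∧ n ∉ Ω ∧ c m = c n ∧ t = tr m n} with hL
  have hLF : L ⊆ Set.centralizer F := by
    rintro _ ⟨m, n, hm, hn, hc, rfl⟩
    rw [Set.mem_centralizer_iff]
    intro g hg
    exact tr_comm (congrFun hc ⟨g, hg⟩) (hfix g hg m hm) (hfix g hg n hn)
  refine Set.Finite.subset ?_ (Set.centralizer_subset hLF)
  -- the vector part
  set W : Set (ℕ → ZMod 3) := {w | ∀ m n, m ∉ Ω → n ∉ Ω → c m = c n → w m = w n} with hW
  have hWf : W.Finite := by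
    classical
    have : Finite Ω := hΩf
    refine (Set.finite_range (fun (p : (Ω → ZMod 3) × ((F → ZMod 3) → ZMod 3)) (n : ℕ) =>
      if h : n ∈ Ω then p.1 ⟨n, h⟩ else p.2 (c n))).subset ?_
    intro w hw
    refine ⟨(fun n => w n.1, fun k => if h : ∃ n, n ∉ Ω ∧ c n = k then w h.choose else 0), ?_⟩
    funext n
    by_cases hn : n ∈ Ω
    · simp only [dif_pos hn]
    · simp only [dif_neg hn]
      have hex : ∃ m, m ∉ Ω ∧ c m = c n := ⟨n, hn, rfl⟩
      rw [dif_pos hex]
      exact hw _ _ hex.choose_spec.1 hn hex.choose_spec.2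
  -- the permutation part
  set A : Set ℕ := Ω ∪ ⋃ k ∈ {k : F → ZMod 3 | {m | m ∉ Ω ∧ c m = k}.Finite},
    {m | m ∉ Ω ∧ c m = k} with hA
  have hAf : A.Finite :=
    hΩf.union ((Set.toFinite _).biUnion fun k hk => hk)
  have hσ : ∀ g ∈ Set.centralizer L, ∀ n, n ∉ A → g.σ n = n := by
    intro g hg n hn
    rw [Set.mem_centralizer_iff] at hg
    have hnΩ : n ∉ Ω := fun h => hn (Or.inl h)
    have hinf : {m | m ∉ Ω ∧ c m = c n}.Infinite := by
      intro hfin
      exact hn (Or.inr (Set.mem_biUnion (x := c n) hfin ⟨hnΩ, rfl⟩))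
    obtain ⟨m, hm, hmn⟩ := (hinf.sdiff (Set.finite_singleton n)).nonempty
    obtain ⟨m', hm', hmn'⟩ := (hinf.sdiff (Set.toFinite {n, m})).nonempty
    simp only [Set.mem_singleton_iff, Set.mem_insert_iff, not_or] at hmn hmn'
    have key : ∀ k, k ∉ Ω → c k = c n → k ≠ n → g.σ n = n ∨ g.σ n = k := by
      intro k hk hck hkn
      have h1 := congrArg G.σ (hg (tr n k) ⟨n, k, hnΩ, hk, hck.symm, rfl⟩)
      have h2 := congrArg (fun τ : Equiv.Perm ℕ => τ n) h1
      simp only [tr, mul_σ, Equiv.Perm.mul_apply, Equiv.swap_apply_left] at h2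
      by_contra hcon
      rw [not_or] at hcon
      rw [Equiv.swap_apply_of_ne_of_ne hcon.1 hcon.2] at h2
      exact hkn (g.σ.injective h2.symm)
    rcases key m hm.1 hm.2 hmn with h | h
    · exact h
    · rcases key m' hm'.1 hm'.2 hmn'.1 with h' | h'
      · exact h'
      · exact absurd (h'.symm.trans h) hmn'.2
  have hv : ∀ g ∈ Set.centralizer L, g.v ∈ W := by
    intro g hg m n hm hn hc
    rw [Set.mem_centralizer_iff] at hg
    have h1 := congrFun (congrArg G.v (hg (tr m n) ⟨m, n, hm, hn, hc, rfl⟩)) m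
    simp only [tr, mul_v, Units.val_one, mul_zero, add_zero, zero_add, one_mul, Equiv.swap_inv,
      Equiv.swap_apply_left] at h1
    exact h1.symm
  have hinj : Set.InjOn (fun g : G => (g.v, g.σ, g.ε)) (Set.centralizer L) := by
    intro a _ b _ hab
    simp only [Prod.mk.injEq] at hab
    exact G.ext hab.1 hab.2.1 hab.2.2
  refine Set.Finite.of_finite_image (f := fun g : G => (g.v, g.σ, g.ε)) ?_ hinj
  refine (hWf.prod ((finite_perms hAf).prod (Set.finite_univ (α := (ZMod 3)ˣ)))).subset ?_
  rintro _ ⟨g, hg, rfl⟩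
  exact ⟨hv g hg, hσ g hg, trivial⟩

/-- There is a group with finite double centralizers which is not perfectly supportable (for supports
in sets `X` of any universe). -/
theorem result : ∃ (H : Type) (_ : Group H), FiniteDoubleCentralizers H ∧
    ¬ PerfectlySupportable.{0, v} H := by
  refine ⟨G, inferInstance, finiteDoubleCentralizers, ?_⟩
  rintro ⟨X, supp, h⟩
  exact not_countable (countable_of_centralizer h neg countable_centralizer_neg)

end Pool.Agent.Results.MP_5e2b9f_al.NotPerfectlySupportable
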